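import Pool.Agent.H109Z.Frog.Super

set_option autoImplicit false

/-!
# The frog model on Galton-Watson trees has a transient regime for every supercritical law
-/

namespace Pool.Agent.Results.MP_ac6ae5_pr.ATransientRegime

open MeasureTheory Pool.Agent.H109Z.FrogGW
open scoped NNReal ENNReal

/-- For every offspring law `μ` on `ℕ` with mean `> 1` (no other assumption), the Galton-Watson
law conditioned on non-extinction is a probability measure, and for some `lam > 0` the frog model
with Poisson(`lam`) sleeping particles is transient on almost every tree. -/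
theorem result (μ : Measure ℕ) [IsProbabilityMeasure μ] (hm : 1 < ∫⁻ n, (n : ℝ≥0∞) ∂μ) :
    IsProbabilityMeasure (GW μ) ∧
      ∃ lam : ℝ≥0, 0 < lam ∧ ∀ᵐ Z ∂(GW μ), Transient lam Z :=
  transient_regime μ hm

end Pool.Agent.Results.MP_ac6ae5_pr.ATransientRegime
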